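import Pool.Agent.U540.BP.Free
import Pool.Agent.N455.CS.Law
import Pool.Agent.N455.CS.Uni
import Pool.Agent.H330.Ramsey

/-!
# Random templates over structures with many types of pairs in infinite homogeneous sets
-/

set_option autoImplicit false

namespace Pool.Agent.U540.BP

open Pool.Agent.W994.AR
open Pool.Agent.N455.CS (Omega rel IsLaw prob FiniteEnergy productLaw gibbsLaw FE Avoid Mat)
open scoped Classical

variable {B : Type}

/-- the points of `J` in the orbit `o` -/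
def part (G : Subgroup (Equiv.Perm B)) (J : Set B) (o : Orb G (Fin 1)) : Set B :=
  {a | a ∈ J ∧ Quotient.mk (orb G (Fin 1)) (fun _ => a) = o}

/-- Ramsey: a subset which still meets all orbits of points in infinite sets, with few orbits of tuples -/
theorem ramsey_orbits (G : Subgroup (Equiv.Perm B)) (hfin : ∀ k, Finite (Orb G (Fin k)))
    (J : Set B) (hJ : ∀ o, (part G J o).Infinite) (K : ℕ) (hK : 0 < K) :
    ∃ I : Set B, I ⊆ J ∧ (∀ o, (part G I o).Infinite) ∧ ∃ u : Fin K × Orb G (Fin 1) → B,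
      ∀ (k : ℕ), k ≤ K → ∀ v : Fin k → B,
      (∀ i, v i ∈ I) → ∃ ρ : Fin k → Fin K × Orb G (Fin 1), Same G v (u ∘ ρ) := by
  have := hfin 1
  have := finite_orb hfin (Fin K × Orb G (Fin 1))
  let a : ℕ → Orb G (Fin 1) → B := fun n o => (((hJ o).natEmbedding (part G J o) n : part G J o) : B)
  have ha : ∀ n o, a n o ∈ part G J o := fun n o => ((hJ o).natEmbedding (part G J o) n).2
  let f : Finset ℕ → Orb G (Fin K × Orb G (Fin 1)) := fun s =>
    if h : s.card = K then Quotient.mk (orb G (Fin K × Orb G (Fin 1)))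
      (fun i => a (s.orderEmbOfFin h i.1) i.2)
    else Quotient.mk (orb G (Fin K × Orb G (Fin 1))) (fun i => a 0 i.2)
  obtain ⟨H, c, hH, hc⟩ := Pool.Agent.H330.infinite_ramsey K f
  obtain ⟨u, rfl⟩ := Quotient.exists_rep c
  refine ⟨{b | ∃ n ∈ H, ∃ o, a n o = b}, ?_, ?_, u, ?_⟩
  · rintro _ ⟨n, _, o, rfl⟩
    exact (ha n o).1
  · intro o
    have hinj : Set.InjOn (fun n => a n o) H := by
      intro n _ m _ hnm
      exact ((hJ o).natEmbedding (part G J o)).injective (Subtype.ext hnm)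
    refine (hH.image hinj).mono ?_
    rintro _ ⟨n, hn, rfl⟩
    exact ⟨⟨n, hn, o, rfl⟩, (ha n o).2⟩
  · intro k hk v hv
    choose n hn o hnv using hv
    obtain ⟨s', h1, h2, h3⟩ := hH.exists_superset_ncard_eq (s := Set.range n) (k := K)
      (by rintro _ ⟨i, rfl⟩; exact hn i) (Set.finite_range n)
      (by
        rw [← Set.image_univ]
        refine (Set.ncard_image_le Set.finite_univ).trans ?_
        rw [Set.ncard_univ, Nat.card_eq_fintype_card, Fintype.card_fin]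
        exact hk)
    have hs'fin : s'.Finite := Set.finite_of_ncard_pos (by omega)
    have hcard : hs'fin.toFinset.card = K := by
      rw [← Set.ncard_eq_toFinset_card s' hs'fin, h3]
    have h4 := hc hs'fin.toFinset hcard (by rw [Set.Finite.coe_toFinset]; exact h2)
    have h5 : f hs'fin.toFinset = Quotient.mk (orb G (Fin K × Orb G (Fin 1)))
        (fun i => a (hs'fin.toFinset.orderEmbOfFin hcard i.1) i.2) := dif_pos hcard
    rw [h5] at h4
    have h6 : Same G (fun i : Fin K × Orb G (Fin 1) =>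
        a (hs'fin.toFinset.orderEmbOfFin hcard i.1) i.2) u := Quotient.exact h4
    have h7 : ∀ i, ∃ r, hs'fin.toFinset.orderEmbOfFin hcard r = n i := by
      intro i
      have h8 : n i ∈ Set.range (hs'fin.toFinset.orderEmbOfFin hcard) := by
        rw [Finset.range_orderEmbOfFin]
        rw [Set.Finite.coe_toFinset]
        exact h1 ⟨i, rfl⟩
      exact h8
    choose ρ hρ using h7
    refine ⟨fun i => (ρ i, o i), ?_⟩
    have h9 := h6.comp (fun i => (ρ i, o i))
    have h10 : ((fun i : Fin K × Orb G (Fin 1) =>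
        a (hs'fin.toFinset.orderEmbOfFin hcard i.1) i.2) ∘ fun i => (ρ i, o i)) = v := by
      funext i
      simp only [Function.comp_apply, hρ]
      exact hnv i
    rwa [h10] at h9

/-- the orbits of nonconstant tuples with entries in `I` -/
noncomputable def cliqueOrbits (G : Subgroup (Equiv.Perm B)) {t : ℕ} (k : Fin t → ℕ)
    [Fintype (Omega G k)] (I : Set B) : Finset (Omega G k) :=
  Finset.univ.filter fun o => ∃ v : Fin (k o.1) → B, NC v ∧ (∀ i, v i ∈ I) ∧
    Quotient.mk (orb G (Fin (k o.1))) v = o.2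

theorem card_cliqueOrbits (G : Subgroup (Equiv.Perm B)) [Finite (Orb G (Fin 1))] {t : ℕ}
    (k : Fin t → ℕ)
    [Fintype (Omega G k)] (I : Set B) (K : ℕ) (hk : ∀ j, k j ≤ K) (u : Fin K × Orb G (Fin 1) → B)
    (hu : ∀ (k : ℕ), k ≤ K → ∀ v : Fin k → B, (∀ i, v i ∈ I) →
      ∃ ρ : Fin k → Fin K × Orb G (Fin 1), Same G v (u ∘ ρ)) :
    (cliqueOrbits G k I).card ≤ ∑ j, (K * Nat.card (Orb G (Fin 1))) ^ (k j) := by
  have := Fintype.ofFinite (Orb G (Fin 1))
  have h1 : cliqueOrbits G k I ⊆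
      (Finset.univ : Finset ((j : Fin t) × (Fin (k j) → Fin K × Orb G (Fin 1)))).image
      (fun x => (⟨x.1, Quotient.mk (orb G (Fin (k x.1))) (u ∘ x.2)⟩ : Omega G k)) := by
    rintro ⟨j, o⟩ ho
    obtain ⟨v, _, hv, hvo⟩ := (Finset.mem_filter.1 ho).2
    obtain ⟨ρ, hρ⟩ := hu (k j) (hk j) v hv
    refine Finset.mem_image.2 ⟨⟨j, ρ⟩, Finset.mem_univ _, ?_⟩
    have h2 : Quotient.mk (orb G (Fin (k j))) v = Quotient.mk (orb G (Fin (k j))) (u ∘ ρ) :=
      Quotient.sound hρ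
    simp only at hvo
    rw [← hvo, h2]
  refine (Finset.card_le_card h1).trans (Finset.card_image_le.trans ?_)
  rw [Finset.card_univ, Fintype.card_sigma]
  refine Finset.sum_le_sum fun j _ => ?_
  rw [Fintype.card_fun, Fintype.card_prod, Fintype.card_fin, Fintype.card_fin,
    Nat.card_eq_fintype_card]

/-- the pairs of distinct elements of `J` and of `J'` are in different orbits -/
def DifferentPairs (G : Subgroup (Equiv.Perm B)) (J J' : Set B) : Prop :=
  ∀ x ∈ J, ∀ y ∈ J, x ≠ y → ∀ x' ∈ J', ∀ y' ∈ J', ∀ g ∈ G, ¬ (g x = x' ∧ g y = y')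

theorem disjoint_cliqueOrbits (G : Subgroup (Equiv.Perm B)) {t : ℕ} (k : Fin t → ℕ)
    [Fintype (Omega G k)] {I I' : Set B} (h : DifferentPairs G I I') :
    Disjoint (cliqueOrbits G k I) (cliqueOrbits G k I') := by
  rw [Finset.disjoint_left]
  rintro ⟨j, o⟩ h1 h2
  obtain ⟨v, ⟨a, b, hab⟩, hv, hvo⟩ := (Finset.mem_filter.1 h1).2
  obtain ⟨v', _, hv', hvo'⟩ := (Finset.mem_filter.1 h2).2
  obtain ⟨g, hg, h3⟩ : Same G v v' := Quotient.exact (hvo.trans hvo'.symm)
  exact h _ (hv a) _ (hv b) hab _ (hv' a) _ (hv' b) g hg ⟨h3 a, h3 b⟩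

/-- The template is on the tractable side in the strongest sense: it does not pp-construct `K_3`, and a
finite nonempty structure maps to it if and only if every single element does, as far as constant tuples
are concerned. -/
def Tractable {ι : Type} {ar : ι → ℕ} (𝔸 : Str ι ar B) : Prop :=
  ¬ PPConstructsK3 𝔸 ∧ ∀ (X : Type) [Finite X] [Nonempty X] (𝕏 : Str ι ar X),
    (∃ f : X → B, ∀ i, ∀ v ∈ 𝕏 i, (fun j => f (v j)) ∈ 𝔸 i) ↔
      ∀ x : X, ∃ b : B, ∀ i, (fun _ => x) ∈ 𝕏 i → (fun _ => b) ∈ 𝔸 i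

theorem tractable_of_free {ι : Type} {ar : ι → ℕ} {𝔸 : Str ι ar B} {I : Set B} (h : Free 𝔸 I) :
    Tractable 𝔸 := ⟨not_k3 h, fun X _ _ 𝕏 => csp h X 𝕏⟩

/-- if all the orbits of nonconstant tuples of `I` are chosen, then `I` is free -/
theorem free_of_subset {G : Subgroup (Equiv.Perm B)} {I : Set B}
    (hI : ∀ o, (part G I o).Infinite) {ι : Type} {arΓ : ι → ℕ} (Γ : Str ι arΓ B)
    (hΓ : ∀ l, Invar G (Γ l)) (hΓI : ∀ l (v : Fin (arΓ l) → B), NC v → (∀ i, v i ∈ I) → v ∈ Γ l)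
    {t : ℕ} (k : Fin t → ℕ) [Fintype (Omega G k)] (Θ : Set (Omega G k))
    (hΘ : ∀ o ∈ cliqueOrbits G k I, o ∈ Θ) {s : ℕ} (e : Fin s → Fin t) :
    Free (expand Γ (fun j => (rel G k Θ (e j)).1)) I := by
  constructor
  · rintro (l | j) v hv hvI
    · exact hΓI l v hv hvI
    · exact hΘ _ (Finset.mem_filter.2 ⟨Finset.mem_univ _, v, hv, hvI, rfl⟩)
  · intro b
    refine (hI (Quotient.mk (orb G (Fin 1)) (fun _ => b))).mono ?_
    rintro a ⟨ha, hab⟩
    refine ⟨ha, ?_⟩
    obtain ⟨g, hg, h1⟩ : Same G (fun _ : Fin 1 => b) (fun _ => a) := Quotient.exact hab.symm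
    have h2 : g b = a := h1 0
    subst h2
    rintro (l | j) h
    · exact hΓ l g hg _ h
    · exact (rel G k Θ (e j)).2 g hg _ h

theorem prob_bound {G : Subgroup (Equiv.Perm B)} (hfin : ∀ k, Finite (Orb G (Fin k)))
    {N : ℕ} (J : Fin N → Set B) (hJ : ∀ c o, (part G (J c) o).Infinite)
    (hJJ : ∀ c c', c ≠ c' → DifferentPairs G (J c) (J c'))
    {ι : Type} {arΓ : ι → ℕ} (Γ : Str ι arΓ B) (hΓ : ∀ l, Invar G (Γ l))
    (hΓJ : ∀ l c (v : Fin (arΓ l) → B), NC v → (∀ i, v i ∈ J c) → v ∈ Γ l)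
    {t : ℕ} (k : Fin t → ℕ) (K : ℕ) (hK : 0 < K) (hk : ∀ j, k j ≤ K) (ε : ℝ) (hε : 0 ≤ ε)
    (hε1 : ε ≤ 1) (μ : Set (Omega G k) → ℝ) (hμ : IsLaw μ) (hfe : FiniteEnergy ε μ) :
    prob μ (fun Θ => ¬ ∀ (s : ℕ) (e : Fin s → Fin t),
      Tractable (expand Γ (fun j => (rel G k Θ (e j)).1))) ≤
      Real.exp (-(N * ε ^ (∑ j, (K * Nat.card (Orb G (Fin 1))) ^ (k j)))) := by
  have := hfin 1
  have : Finite (Omega G k) := by
    have := fun j => hfin (k j)
    infer_instance
  have := Fintype.ofFinite (Omega G k)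
  have hI := fun c => ramsey_orbits G hfin (J c) (hJ c) K hK
  choose I hIJ hIinf u hu using hI
  have h1 := Pool.Agent.N455.CS.wcount hε hε1 (μ := fun R : Finset (Omega G k) => μ (R : Set _))
    (fun R => hμ.1 _) hfe.fe (∑ j, (K * Nat.card (Orb G (Fin 1))) ^ (k j))
    (Finset.univ : Finset (Fin N))
    (fun c => cliqueOrbits G k (I c)) (fun c => cliqueOrbits G k (I c))
    (fun c _ => card_cliqueOrbits G k (I c) K hk (u c) (hu c))
    (fun c _ c' _ hcc => disjoint_cliqueOrbits G k (fun x hx y hy hxy x' hx' y' hy' =>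
      hJJ c c' hcc x (hIJ c hx) y (hIJ c hy) hxy x' (hIJ c' hx') y' (hIJ c' hy')))
  rw [hμ.sum, mul_one, Finset.card_univ, Fintype.card_fin] at h1
  have h2 : prob μ (fun Θ => ¬ ∀ (s : ℕ) (e : Fin s → Fin t),
      Tractable (expand Γ (fun j => (rel G k Θ (e j)).1))) ≤
      (1 - ε ^ (∑ j, (K * Nat.card (Orb G (Fin 1))) ^ (k j))) ^ N := by
    refine le_trans (Pool.Agent.N455.CS.prob_le hμ.1 ?_) h1
    intro R hR c _ hmat
    apply hR
    intro s e
    refine tractable_of_free (free_of_subset (hIinf c) Γ hΓ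
      (fun l v hv hvI => hΓJ l c v hv fun i => hIJ c (hvI i)) k _ (fun o ho => ?_) e)
    exact (hmat o ho).2 ho
  refine h2.trans ?_
  have h3 : ε ^ (∑ j, (K * Nat.card (Orb G (Fin 1))) ^ (k j)) ≤ 1 := pow_le_one₀ hε hε1
  have h4 := Real.one_sub_le_exp_neg (ε ^ (∑ j, (K * Nat.card (Orb G (Fin 1))) ^ (k j)))
  calc (1 - ε ^ (∑ j, (K * Nat.card (Orb G (Fin 1))) ^ (k j))) ^ N
      ≤ (Real.exp (-(ε ^ (∑ j, (K * Nat.card (Orb G (Fin 1))) ^ (k j))))) ^ N :=
        pow_le_pow_left₀ (by linarith) h4 N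
    _ = _ := by
        rw [← Real.exp_nat_mul]
        congr 1
        ring

/-- deterministic form: fewer than `N` orbits of nonconstant tuples are missing -/
theorem det {G : Subgroup (Equiv.Perm B)} (hfin : ∀ k, Finite (Orb G (Fin k)))
    {N : ℕ} (J : Fin N → Set B) (hJ : ∀ c o, (part G (J c) o).Infinite)
    (hJJ : ∀ c c', c ≠ c' → DifferentPairs G (J c) (J c'))
    {ι : Type} {arΓ : ι → ℕ} (Γ : Str ι arΓ B) (hΓ : ∀ l, Invar G (Γ l))
    (hΓJ : ∀ l c (v : Fin (arΓ l) → B), NC v → (∀ i, v i ∈ J c) → v ∈ Γ l)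
    {t : ℕ} (k : Fin t → ℕ) (Θ : Set (Omega G k))
    (hΘ : Nat.card {o : Omega G k // o ∉ Θ ∧ ∃ (c : Fin N) (v : Fin (k o.1) → B), NC v ∧
      (∀ i, v i ∈ J c) ∧ Quotient.mk (orb G (Fin (k o.1))) v = o.2} < N)
    (s : ℕ) (e : Fin s → Fin t) : Tractable (expand Γ (fun j => (rel G k Θ (e j)).1)) := by
  have : Finite (Omega G k) := by
    have := fun j => hfin (k j)
    infer_instance
  have := Fintype.ofFinite (Omega G k)
  have h1 : ∃ c, ∀ o ∈ cliqueOrbits G k (J c), o ∈ Θ := by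
    by_contra hcon
    push Not at hcon
    choose o ho hoΘ using hcon
    have h2 : Function.Injective (fun c => (⟨o c, hoΘ c, c, (Finset.mem_filter.1 (ho c)).2⟩ :
        {o : Omega G k // o ∉ Θ ∧ ∃ (c : Fin N) (v : Fin (k o.1) → B), NC v ∧
          (∀ i, v i ∈ J c) ∧ Quotient.mk (orb G (Fin (k o.1))) v = o.2})) := by
      intro c c' hcc
      by_contra hne
      have h3 : o c = o c' := congrArg Subtype.val hcc
      have h4 := ho c'
      rw [← h3] at h4
      exact Finset.disjoint_left.1 (disjoint_cliqueOrbits G k (hJJ c c' hne)) (ho c) h4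
    have h3 := Nat.card_le_card_of_injective _ h2
    rw [Nat.card_eq_fintype_card, Fintype.card_fin] at h3
    omega
  obtain ⟨c, hc⟩ := h1
  exact tractable_of_free (free_of_subset (hJ c) Γ hΓ (fun l v hv hvI => hΓJ l c v hv hvI)
    k Θ hc e)

end Pool.Agent.U540.BP
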