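import Pool.Agent.W994.AR.Final

/-!
# Templates with a free infinite set

`𝔸` is a relational structure with domain `B`. A set `I` is free for `𝔸` if all nonconstant tuples with
entries in `I` are in all relations (of the right arity), and if for every `b : B` there are infinitely
many `a ∈ I` such that the constant tuple `a` is in all relations which contain the constant tuple `b`.
Such a template has a trivial constraint satisfaction problem, and it does not pp-construct `K_3`.
-/

set_option autoImplicit false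

namespace Pool.Agent.U540.BP

open Pool.Agent.W994.AR

variable {B : Type}

/-- `a` is admissible for the family `c` of elements: it is in `I`, and the constant tuple `a` is in all
relations which contain all the constant tuples `c φ`. -/
def Adm {ι : Type} {ar : ι → ℕ} (𝔸 : Str ι ar B) (I : Set B) {Φ : Type} (c : Φ → B) : Set B :=
  {a | a ∈ I ∧ ∀ i, (∀ φ, (fun _ => c φ) ∈ 𝔸 i) → (fun _ => a) ∈ 𝔸 i}

/-- The set `I` is free for `𝔸`. -/
structure Free {ι : Type} {ar : ι → ℕ} (𝔸 : Str ι ar B) (I : Set B) : Prop where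
  nc : ∀ i (v : Fin (ar i) → B), NC v → (∀ j, v j ∈ I) → v ∈ 𝔸 i
  pt : ∀ b : B, {a | a ∈ I ∧ ∀ i, (fun _ => b) ∈ 𝔸 i → (fun _ => a) ∈ 𝔸 i}.Infinite

variable {ι : Type} {ar : ι → ℕ} {𝔸 : Str ι ar B} {I : Set B}

theorem Free.adm (h : Free 𝔸 I) {Φ : Type} [Nonempty Φ] (c : Φ → B) : (Adm 𝔸 I c).Infinite := by
  obtain ⟨φ⟩ := ‹Nonempty Φ›
  refine (h.pt (c φ)).mono ?_
  rintro a ⟨ha, h1⟩
  exact ⟨ha, fun i hi => h1 i (hi φ)⟩

/-- extension of a partial map -/
theorem extend (h : Free 𝔸 I) {Φ V : Type} [Nonempty Φ] [Finite V] (r : V → Φ → B) (e : V → B)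
    (h1 : ∀ x y, e x = e y ↔ r x = r y) (h2 : ∀ x, e x ∈ Adm 𝔸 I (r x)) (F : Set (Φ → B))
    (hF : F.Finite) :
    ∃ T : (Φ → B) → B, (∀ x, T (r x) = e x) ∧ Set.InjOn T (F ∪ Set.range r) ∧
      ∀ c ∈ F ∪ Set.range r, T c ∈ Adm 𝔸 I c := by
  classical
  refine Set.Finite.induction_on (motive := fun F _ => ∃ T : (Φ → B) → B, (∀ x, T (r x) = e x) ∧
    Set.InjOn T (F ∪ Set.range r) ∧ ∀ c ∈ F ∪ Set.range r, T c ∈ Adm 𝔸 I c) F hF ?_ ?_
  · obtain ⟨φ⟩ := ‹Nonempty Φ›
    have hT : ∀ x, (fun c : Φ → B => if hx : ∃ x, r x = c then e hx.choose else c φ) (r x) = e x := by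
      intro x
      have hx : ∃ y, r y = r x := ⟨x, rfl⟩
      simp only [dif_pos hx]
      exact (h1 _ _).2 hx.choose_spec
    refine ⟨fun c => if hx : ∃ x, r x = c then e hx.choose else c φ, hT, ?_, ?_⟩
    · rintro c hc c' hc' hcc
      rw [Set.empty_union] at hc hc'
      obtain ⟨x, rfl⟩ := hc
      obtain ⟨y, rfl⟩ := hc'
      rw [hT x, hT y] at hcc
      exact (h1 x y).1 hcc
    · rintro c hc
      rw [Set.empty_union] at hc
      obtain ⟨x, rfl⟩ := hc
      rw [hT x]
      exact h2 x
  · intro c0 F hc0 hF ⟨T, hT, hinj, hadm⟩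
    by_cases hc : c0 ∈ Set.range r
    · have he : insert c0 F ∪ Set.range r = F ∪ Set.range r := by
        ext c
        simp only [Set.mem_union, Set.mem_insert_iff]
        constructor
        · rintro ((rfl | h3) | h3)
          · exact Or.inr hc
          · exact Or.inl h3
          · exact Or.inr h3
        · rintro (h3 | h3)
          · exact Or.inl (Or.inr h3)
          · exact Or.inr h3
      rw [he]
      exact ⟨T, hT, hinj, hadm⟩
    · have hfin : (T '' (F ∪ Set.range r)).Finite :=
        ((hF.union (Set.finite_range r)).image T)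
      obtain ⟨a, ha, haT⟩ := ((h.adm c0).sdiff hfin).nonempty
      have hne : ∀ c ∈ F ∪ Set.range r, c ≠ c0 := by
        rintro c (h3 | h3) rfl
        · exact hc0 h3
        · exact hc h3
      refine ⟨Function.update T c0 a, ?_, ?_, ?_⟩
      · intro x
        rw [Function.update_of_ne (hne _ (Or.inr ⟨x, rfl⟩))]
        exact hT x
      · rintro c hc' c' hc'' hcc
        rw [Set.insert_union, Set.mem_insert_iff] at hc' hc''
        rcases hc' with rfl | hc' <;> rcases hc'' with rfl | hc''
        · rfl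
        · exfalso
          rw [Function.update_self, Function.update_of_ne (hne _ hc'')] at hcc
          exact haT ⟨c', hc'', hcc.symm⟩
        · exfalso
          rw [Function.update_self, Function.update_of_ne (hne _ hc')] at hcc
          exact haT ⟨c, hc', hcc⟩
        · rw [Function.update_of_ne (hne _ hc'), Function.update_of_ne (hne _ hc'')] at hcc
          exact hinj hc' hc'' hcc
      · rintro c hc'
        rw [Set.insert_union, Set.mem_insert_iff] at hc'
        rcases hc' with rfl | hc'
        · rw [Function.update_self]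
          exact ha
        · rw [Function.update_of_ne (hne _ hc')]
          exact hadm c hc'

/-- a map which is injective and admissible on the rows of tuples in a relation gives a tuple in the
relation -/
theorem mem_of_map (h : Free 𝔸 I) {Φ : Type} [hΦ : Nonempty Φ] (T : (Φ → B) → B) (S : Set (Φ → B))
    (hinj : Set.InjOn T S) (hadm : ∀ c ∈ S, T c ∈ Adm 𝔸 I c) (i : ι) (v : Φ → Fin (ar i) → B)
    (hv : ∀ φ, v φ ∈ 𝔸 i) (hS : ∀ j, (fun φ => v φ j) ∈ S) :
    (fun j => T (fun φ => v φ j)) ∈ 𝔸 i := by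
  by_cases hnc : NC (fun j => T (fun φ => v φ j))
  · exact h.nc i _ hnc fun j => (hadm _ (hS j)).1
  · have hconst : ∀ j j', T (fun φ => v φ j) = T (fun φ => v φ j') := by
      intro j j'
      by_contra h1
      exact hnc ⟨j, j', h1⟩
    rcases Nat.eq_zero_or_pos (ar i) with h0 | h0
    · have hem : IsEmpty (Fin (ar i)) := by
        rw [h0]
        exact Fin.isEmpty
      obtain ⟨φ⟩ := hΦ
      have h1 : (fun j => T (fun φ => v φ j)) = v φ := by
        funext j
        exact hem.elim j
      rw [h1]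
      exact hv φ
    · have h1 : ∀ φ, v φ = fun _ => v φ ⟨0, h0⟩ := by
        intro φ
        funext j
        have h2 := hinj (hS j) (hS ⟨0, h0⟩) (hconst j ⟨0, h0⟩)
        exact congrFun h2 φ
      have h2 : (fun j => T (fun φ => v φ j)) = fun _ => T (fun φ => v φ ⟨0, h0⟩) := by
        funext j
        exact hconst j ⟨0, h0⟩
      rw [h2]
      refine (hadm _ (hS ⟨0, h0⟩)).2 i fun φ => ?_
      have h3 := hv φ
      rw [h1 φ] at h3
      exact h3

/-- pp-definable relations are closed under admissible maps -/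
theorem pp_closed (h : Free 𝔸 I) {Φ : Type} [Nonempty Φ] {V : Type} [Finite V] {S : Set (V → B)}
    (hS : PPDef 𝔸 S) (v : Φ → V → B) (hv : ∀ φ, v φ ∈ S) (e : V → B)
    (h1 : ∀ x y, e x = e y ↔ ∀ φ, v φ x = v φ y)
    (h2 : ∀ x, e x ∈ Adm 𝔸 I (fun φ => v φ x)) : e ∈ S := by
  obtain ⟨q, Ψ, hE⟩ := hS
  have h3 := fun φ => (hE (v φ)).1 (hv φ)
  choose u hu using h3
  obtain ⟨T, hT, hinj, hadm⟩ := extend h (fun x φ => v φ x) e
    (fun x y => (h1 x y).trans funext_iff.symm) h2 (Set.range fun z : Fin q => fun φ => u φ z)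
    (Set.finite_range _)
  rw [hE]
  refine ⟨fun z => T (fun φ => u φ z), ?_⟩
  have h4 : (Sum.elim e (fun z => T (fun φ => u φ z))) =
      fun z => T (fun φ => Sum.elim (v φ) (u φ) z) := by
    funext z
    cases z with
    | inl x => exact (hT x).symm
    | inr z => rfl
  rw [h4]
  intro ψ hψ
  have h5 := fun φ => hu φ ψ hψ
  cases ψ with
  | eq x y =>
    show T _ = T _
    congr 1
    funext φ
    exact h5 φ
  | rel i x =>
    refine mem_of_map h T _ hinj hadm i (fun φ j => Sum.elim (v φ) (u φ) (x j)) h5 ?_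
    intro j
    rcases hx : x j with y | z
    · right
      exact ⟨y, by funext φ; simp [hx]⟩
    · left
      exact ⟨z, by funext φ; simp [hx]⟩

theorem inj_choice {X : Type} [Finite X] (S : X → Set B) (hS : ∀ x, (S x).Infinite) :
    ∃ f : X → B, Function.Injective f ∧ ∀ x, f x ∈ S x := by
  classical
  have := Fintype.ofFinite X
  have h1 := fun x => (hS x).exists_subset_card_eq (Fintype.card X)
  choose t ht hc using h1
  obtain ⟨f, hf, hft⟩ := (Finset.all_card_le_biUnion_card_iff_exists_injective t).1 (by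
    intro s
    rcases s.eq_empty_or_nonempty with rfl | ⟨x, hx⟩
    · simp
    · calc s.card ≤ Fintype.card X := Finset.card_le_univ s
        _ = (t x).card := (hc x).symm
        _ ≤ _ := Finset.card_le_card (Finset.subset_biUnion_of_mem t hx))
  exact ⟨f, hf, fun x => ht x (hft x)⟩

/-- the constraint satisfaction problem is trivial -/
theorem csp (h : Free 𝔸 I) (X : Type) [Finite X] [Nonempty X] (𝕏 : Str ι ar X) :
    (∃ f : X → B, ∀ i, ∀ v ∈ 𝕏 i, (fun j => f (v j)) ∈ 𝔸 i) ↔
      ∀ x : X, ∃ b : B, ∀ i, (fun _ => x) ∈ 𝕏 i → (fun _ => b) ∈ 𝔸 i := by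
  constructor
  · rintro ⟨f, hf⟩ x
    exact ⟨f x, fun i hi => hf i _ hi⟩
  · intro h1
    choose b hb using h1
    obtain ⟨f, hf, hfb⟩ := inj_choice (fun x => {a | a ∈ I ∧ ∀ i, (fun _ => b x) ∈ 𝔸 i →
      (fun _ => a) ∈ 𝔸 i}) (fun x => h.pt (b x))
    refine ⟨f, fun i v hv => ?_⟩
    by_cases hnc : NC (fun j => f (v j))
    · exact h.nc i _ hnc fun j => (hfb _).1
    · have hconst : ∀ j j', v j = v j' := by
        intro j j'
        by_contra h2
        exact hnc ⟨j, j', fun h3 => h2 (hf h3)⟩
      have hx : ∃ x : X, v = fun _ => x := by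
        rcases Nat.eq_zero_or_pos (ar i) with h0 | h0
        · have hem : IsEmpty (Fin (ar i)) := by
            rw [h0]
            exact Fin.isEmpty
          obtain ⟨x⟩ := ‹Nonempty X›
          exact ⟨x, funext fun j => hem.elim j⟩
        · exact ⟨v ⟨0, h0⟩, funext fun j => hconst j _⟩
      obtain ⟨x, rfl⟩ := hx
      exact (hfb x).2 i (hb x i hv)

/-- the template does not pp-construct `K_3` -/
theorem not_k3 (h : Free 𝔸 I) : ¬ PPConstructsK3 𝔸 := by
  classical
  rintro ⟨n, E, -, hE, ⟨a, ha⟩, ⟨g, hg⟩⟩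
  let Φ := Fin 4 → Fin 3
  let row : Fin 4 → Fin n → Φ → B := fun s p φ => a (φ s) p
  obtain ⟨T, -, hinj, hadm⟩ := extend h (Φ := Φ) (V := Empty) (fun x => x.elim) (fun x => x.elim)
    (fun x => x.elim) (fun x => x.elim) (Set.range fun z : Fin 4 × Fin n => row z.1 z.2)
    (Set.finite_range _)
  have hmem : ∀ s p, row s p ∈ (Set.range fun z : Fin 4 × Fin n => row z.1 z.2) ∪
      Set.range (fun x : Empty => (x.elim : Φ → B)) := fun s p => Or.inl ⟨(s, p), rfl⟩
  let b : Fin 4 → Fin n → B := fun s p => T (row s p)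
  have hb : ∀ s t p q, b s p = b t q ↔ ∀ φ : Φ, a (φ s) p = a (φ t) q := by
    intro s t p q
    constructor
    · intro h1 φ
      exact congrFun (hinj (hmem s p) (hmem t q) h1) φ
    · intro h1
      show T _ = T _
      congr 1
      funext φ
      exact h1 φ
  have key : ∀ s t, s ≠ t → Sum.elim (b s) (b t) ∈ E := by
    intro s t hst
    -- there are maps with prescribed different values
    have hφ : ∀ i j : Fin 3, i ≠ j → ∃ φ : {φ : Φ // φ s ≠ φ t}, φ.1 s = i ∧ φ.1 t = j := by
      intro i j hij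
      have h1 : (Function.update (fun _ => j) s i : Φ) s = i := Function.update_self _ _ _
      have h2 : (Function.update (fun _ => j) s i : Φ) t = j := Function.update_of_ne hst.symm _ _
      exact ⟨⟨Function.update (fun _ => j) s i, by rw [h1, h2]; exact hij⟩, h1, h2⟩
    have hne : ∀ i : Fin 3, ∃ j, i ≠ j := by decide
    have hne3 : ∀ i : Fin 3, ∃ j l, i ≠ j ∧ i ≠ l ∧ j ≠ l := by decide
    have : Nonempty {φ : Φ // φ s ≠ φ t} := ⟨(hφ 0 1 (by decide)).choose⟩
    have hsv : ∀ i : Fin 3, ∃ φ : {φ : Φ // φ s ≠ φ t}, φ.1 s = i := by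
      intro i
      obtain ⟨j, hij⟩ := hne i
      obtain ⟨φ, h1, _⟩ := hφ i j hij
      exact ⟨φ, h1⟩
    have htv : ∀ i : Fin 3, ∃ φ : {φ : Φ // φ s ≠ φ t}, φ.1 t = i := by
      intro i
      obtain ⟨j, hij⟩ := hne i
      obtain ⟨φ, _, h1⟩ := hφ j i hij.symm
      exact ⟨φ, h1⟩
    have hcross : ∀ p q, (∀ φ : {φ : Φ // φ s ≠ φ t}, a (φ.1 s) p = a (φ.1 t) q) →
        ∀ i j, a i p = a j q := by
      intro p q h1
      have h2 : ∀ i j, i ≠ j → a i p = a j q := by
        intro i j hij
        obtain ⟨φ, h3, h4⟩ := hφ i j hij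
        have := h1 φ
        rwa [h3, h4] at this
      intro i j
      by_cases hij : i = j
      · subst hij
        obtain ⟨j, l, h3, h4, h5⟩ := hne3 i
        rw [h2 i l h4, ← h2 j l h5, h2 j i h3.symm]
      · exact h2 i j hij
    refine pp_closed h hE (Φ := {φ : Φ // φ s ≠ φ t})
      (fun φ => Sum.elim (a (φ.1 s)) (a (φ.1 t))) (fun φ => ha _ _ φ.2) _ ?_ ?_
    · rintro (p | p) (q | q)
      · simp only [Sum.elim_inl]
        rw [hb]
        constructor
        · intro h1 φ
          exact h1 φ.1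
        · intro h1 φ
          obtain ⟨ψ, h2⟩ := hsv (φ s)
          have := h1 ψ
          rwa [h2] at this
      · simp only [Sum.elim_inl, Sum.elim_inr]
        rw [hb]
        constructor
        · intro h1 φ
          exact h1 φ.1
        · intro h1 φ
          exact hcross p q h1 _ _
      · simp only [Sum.elim_inl, Sum.elim_inr]
        rw [eq_comm, hb]
        constructor
        · intro h1 φ
          exact (h1 φ.1).symm
        · intro h1 φ
          exact hcross q p (fun φ => (h1 φ).symm) _ _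
      · simp only [Sum.elim_inr]
        rw [hb]
        constructor
        · intro h1 φ
          exact h1 φ.1
        · intro h1 φ
          obtain ⟨ψ, h2⟩ := htv (φ t)
          have := h1 ψ
          rwa [h2] at this
    · rintro (p | p)
      · obtain ⟨h1, h2⟩ := hadm _ (hmem s p)
        refine ⟨h1, fun i hi => h2 i fun φ => ?_⟩
        obtain ⟨ψ, h3⟩ := hsv (φ s)
        have := hi ψ
        simp only [Sum.elim_inl, h3] at this
        exact this
      · obtain ⟨h1, h2⟩ := hadm _ (hmem t p)
        refine ⟨h1, fun i hi => h2 i fun φ => ?_⟩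
        obtain ⟨ψ, h3⟩ := htv (φ t)
        have := hi ψ
        simp only [Sum.elim_inr, h3] at this
        exact this
  have hinj4 : Function.Injective fun s : Fin 4 => g (b s) := by
    intro s t hst
    by_contra hne
    exact hg _ _ (key s t hne) hst
  have := Fintype.card_le_of_injective _ hinj4
  simp at this

end Pool.Agent.U540.BP
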