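import Pool.Agent.U540.BP.Count

/-!
# The power of the pure set: `N` crossing equivalence relations on `ℕ ^ N`
-/

set_option autoImplicit false

namespace Pool.Agent.U540.BP

open Pool.Agent.W994.AR
open Pool.Agent.N455.CS (Omega rel IsLaw prob FiniteEnergy productLaw gibbsLaw FE Avoid Mat)
open scoped Classical

/-- The structure on `ℕ ^ N` with the `N` equivalence relations 'the coordinates number `c` are
equal'. -/
def grid (N : ℕ) : Str (Fin N) (fun _ => 2) (Fin N → ℕ) := fun c => {v | v 0 c = v 1 c}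

theorem perm_extend (S : Finset ℕ) (p : ℕ → ℕ) (hp : Set.InjOn p S) :
    ∃ π : Equiv.Perm ℕ, ∀ s ∈ S, π s = p s := by
  let W : Finset ℕ := S ∪ S.image p
  let f : {x : W // (x : ℕ) ∈ S} → {x : W // (x : ℕ) ∈ S.image p} := fun x =>
    ⟨⟨p x.1.1, Finset.mem_union_right _ (Finset.mem_image_of_mem p x.2)⟩,
      Finset.mem_image_of_mem p x.2⟩
  have hf : Function.Bijective f := by
    constructor
    · rintro ⟨⟨x, hx⟩, hxS⟩ ⟨⟨y, hy⟩, hyS⟩ h
      have h1 : p x = p y := congrArg (fun z => ((z.1 : W) : ℕ)) h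
      have h2 : x = y := hp hxS hyS h1
      subst h2
      rfl
    · rintro ⟨⟨y, hy⟩, hyS⟩
      obtain ⟨x, hx, rfl⟩ := Finset.mem_image.1 hyS
      exact ⟨⟨⟨x, Finset.mem_union_left _ hx⟩, hx⟩, rfl⟩
  let e := Equiv.ofBijective f hf
  refine ⟨Equiv.Perm.ofSubtype (p := fun x => x ∈ W) e.extendSubtype, ?_⟩
  intro s hs
  have hsW : s ∈ W := Finset.mem_union_left _ hs
  have h1 := e.extendSubtype_apply_of_mem ⟨s, hsW⟩ hs
  rw [Equiv.Perm.ofSubtype_apply_of_mem _ hsW, h1]
  rfl

theorem mem_grid {N : ℕ} {X : Type} (c : Fin N) (h : X → Fin N → ℕ) (x y : X) :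
    (fun j => h ((![x, y] : Fin 2 → X) j)) ∈ grid N c ↔ h x c = h y c := Iff.rfl

theorem grid_homogeneous (N : ℕ) : Homogeneous (grid N) := by
  intro F h hinj hh
  have h1 : ∀ c : Fin N, ∀ x ∈ F, ∀ y ∈ F, x c = y c ↔ h x c = h y c := by
    intro c x hx y hy
    have h2 := hh c ![x, y] (by
      intro j
      refine Fin.cases hx (fun j => ?_) j
      have : j = 0 := Subsingleton.elim _ _
      subst this
      exact hy)
    exact h2
  have h2 : ∀ c : Fin N, ∃ π : Equiv.Perm ℕ, ∀ x ∈ F, π (x c) = h x c := by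
    intro c
    let p : ℕ → ℕ := fun s => if hs : ∃ x ∈ F, x c = s then h hs.choose c else 0
    have hp : ∀ x ∈ F, p (x c) = h x c := by
      intro x hx
      have hs : ∃ y ∈ F, y c = x c := ⟨x, hx, rfl⟩
      have h3 : p (x c) = h hs.choose c := dif_pos hs
      rw [h3]
      exact (h1 c _ hs.choose_spec.1 x hx).1 hs.choose_spec.2
    obtain ⟨π, hπ⟩ := perm_extend (F.image fun x => x c) p (by
      intro a ha b hb hab
      rw [Finset.mem_coe, Finset.mem_image] at ha hb
      obtain ⟨x, hx, rfl⟩ := ha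
      obtain ⟨y, hy, rfl⟩ := hb
      rw [hp x hx, hp y hy] at hab
      exact (h1 c x hx y hy).2 hab)
    refine ⟨π, fun x hx => ?_⟩
    rw [hπ _ (Finset.mem_image_of_mem _ hx), hp x hx]
  choose π hπ using h2
  refine ⟨Equiv.piCongrRight π, ?_, ?_⟩
  · intro c v
    show v 0 c = v 1 c ↔ π c (v 0 c) = π c (v 1 c)
    exact (π c).injective.eq_iff.symm
  · intro x hx
    funext c
    exact hπ c x hx

theorem grid_trans (N : ℕ) (a b : Fin N → ℕ) : ∃ g ∈ autGroup (grid N), g a = b := by
  obtain ⟨g, hg, h⟩ := grid_homogeneous N {a} (fun _ => b) (by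
    intro x hx y hy _
    rw [Finset.mem_singleton] at hx hy
    rw [hx, hy]) (by
    intro c v hv
    have h0 := Finset.mem_singleton.1 (hv 0)
    have h1 := Finset.mem_singleton.1 (hv 1)
    constructor
    · intro _
      rfl
    · intro _
      show v 0 c = v 1 c
      rw [h0, h1])
  exact ⟨g, hg, h a (Finset.mem_singleton_self a)⟩

theorem grid_card_orb (N : ℕ) : Nat.card (Orb (autGroup (grid N)) (Fin 1)) = 1 := by
  rw [Nat.card_eq_one_iff_unique]
  constructor
  · constructor
    intro o o'
    obtain ⟨u, rfl⟩ := Quotient.exists_rep o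
    obtain ⟨v, rfl⟩ := Quotient.exists_rep o'
    apply Quotient.sound
    obtain ⟨g, hg, h⟩ := grid_trans N (u 0) (v 0)
    refine ⟨g, hg, fun i => ?_⟩
    have : i = 0 := Subsingleton.elim _ _
    rw [this]
    exact h
  · exact ⟨Quotient.mk _ (fun _ _ => 0)⟩

theorem grid_finitelyBounded (N : ℕ) : FinitelyBounded (grid N) := by
  refine ⟨{Y | Y.1 ≤ 3 ∧ ¬ Embeds Y.2 (grid N)}, ?_, ?_⟩
  · have h1 : ({Y : Σ n : ℕ, Str (Fin N) (fun _ => 2) (Fin n) | Y.1 ≤ 3 ∧ ¬ Embeds Y.2 (grid N)}) ⊆
        ⋃ m ∈ Finset.range 4, Set.range (fun 𝕐 : Str (Fin N) (fun _ => 2) (Fin m) =>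
          (⟨m, 𝕐⟩ : Σ n : ℕ, Str (Fin N) (fun _ => 2) (Fin n))) := by
      rintro ⟨m, 𝕐⟩ ⟨hm, _⟩
      simp only [Set.mem_iUnion]
      exact ⟨m, Finset.mem_range.2 (Nat.lt_succ_of_le hm), 𝕐, rfl⟩
    refine Set.Finite.subset ?_ h1
    refine Set.Finite.biUnion (Finset.finite_toSet _) fun m _ => ?_
    have := finite_str (σ := Fin N) (fun _ => 2) m
    exact Set.finite_range _
  · intro n 𝕏
    constructor
    · rintro h Y ⟨_, hY⟩ hYX
      exact hY (hYX.trans h)
    · intro h
      -- local embeddings of sets of at most three elements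
      have hloc : ∀ x y z : Fin n, ∃ f : Fin n → (Fin N → ℕ), Set.InjOn f {x, y, z} ∧
          ∀ c, ∀ a ∈ ({x, y, z} : Set (Fin n)), ∀ b ∈ ({x, y, z} : Set (Fin n)),
            (![a, b] : Fin 2 → Fin n) ∈ 𝕏 c ↔ f a c = f b c := by
        intro x y z
        let S : Finset (Fin n) := {x, y, z}
        have hS : S.card ≤ 3 := Finset.card_le_three
        let e : Fin S.card ≃ S := S.equivFin.symm
        let 𝕐 : Str (Fin N) (fun _ => 2) (Fin S.card) := fun c => {v | (fun j => ((e (v j) : S) : Fin n)) ∈ 𝕏 c}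
        have hY : Embeds 𝕐 𝕏 := ⟨fun i => ((e i : S) : Fin n),
          Subtype.val_injective.comp e.injective, fun c v => Iff.rfl⟩
        have hYB : Embeds 𝕐 (grid N) := by
          by_contra hcon
          exact h ⟨S.card, 𝕐⟩ ⟨hS, hcon⟩ hY
        obtain ⟨g, hg, hgr⟩ := hYB
        have hmem : ∀ a ∈ ({x, y, z} : Set (Fin n)), a ∈ S := by
          intro a ha
          simp only [Set.mem_insert_iff, Set.mem_singleton_iff] at ha
          simp only [S, Finset.mem_insert, Finset.mem_singleton]
          exact ha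
        refine ⟨fun a => if ha : a ∈ S then g (e.symm ⟨a, ha⟩) else 0, ?_, ?_⟩
        · intro a ha b hb hab
          simp only [dif_pos (hmem a ha), dif_pos (hmem b hb)] at hab
          have h1 := e.symm.injective (hg hab)
          exact congrArg Subtype.val h1
        · intro c a ha b hb
          simp only [dif_pos (hmem a ha), dif_pos (hmem b hb)]
          have h1 := hgr c ![e.symm ⟨a, hmem a ha⟩, e.symm ⟨b, hmem b hb⟩]
          have h2 : (fun j => ((e ((![e.symm ⟨a, hmem a ha⟩, e.symm ⟨b, hmem b hb⟩] :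
              Fin 2 → Fin S.card) j) : S) : Fin n)) = ![a, b] := by
            funext j
            fin_cases j <;> simp
          have h3 : (![a, b] : Fin 2 → Fin n) ∈ 𝕏 c ↔ (![e.symm ⟨a, hmem a ha⟩,
              e.symm ⟨b, hmem b hb⟩] : Fin 2 → Fin S.card) ∈ 𝕐 c := by
            show _ ↔ _ ∈ 𝕏 c
            rw [h2]
          rw [h3, h1]
          rfl
      let r : Fin N → Setoid (Fin n) := fun c =>
        { r := fun a b => (![a, b] : Fin 2 → Fin n) ∈ 𝕏 c
          iseqv := by
            constructor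
            · intro a
              obtain ⟨f, _, hf⟩ := hloc a a a
              exact (hf c a (by simp) a (by simp)).2 rfl
            · intro a b hab
              obtain ⟨f, _, hf⟩ := hloc a b b
              exact (hf c b (by simp) a (by simp)).2 ((hf c a (by simp) b (by simp)).1 hab).symm
            · intro a b d hab hbd
              obtain ⟨f, _, hf⟩ := hloc a b d
              exact (hf c a (by simp) d (by simp)).2 (((hf c a (by simp) b (by simp)).1 hab).trans
                ((hf c b (by simp) d (by simp)).1 hbd)) }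
      have hr : ∀ c a b, ((Quotient.mk (r c) a).out : ℕ) = ((Quotient.mk (r c) b).out : ℕ) ↔
          (![a, b] : Fin 2 → Fin n) ∈ 𝕏 c := by
        intro c a b
        constructor
        · intro h1
          have h2 : (Quotient.mk (r c) a).out = (Quotient.mk (r c) b).out := Fin.ext h1
          have h3 : Quotient.mk (r c) a = Quotient.mk (r c) b := by
            rw [← Quotient.out_eq (Quotient.mk (r c) a), h2, Quotient.out_eq]
          exact Quotient.exact h3
        · intro h1
          have h3 : Quotient.mk (r c) a = Quotient.mk (r c) b := Quotient.sound h1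
          rw [h3]
      refine ⟨fun a c => ((Quotient.mk (r c) a).out : ℕ), ?_, ?_⟩
      · intro a b hab
        obtain ⟨f, hfi, hf⟩ := hloc a b b
        apply hfi (by simp) (by simp)
        funext c
        exact (hf c a (by simp) b (by simp)).1 ((hr c a b).1 (congrFun hab c))
      · intro c v
        have h1 : v = ![v 0, v 1] := by
          funext j
          fin_cases j <;> rfl
        constructor
        · intro hv
          rw [h1] at hv
          exact (hr c (v 0) (v 1)).2 hv
        · intro hv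
          rw [h1]
          exact (hr c (v 0) (v 1)).1 hv

/-- the points whose coordinates in `T` are `0` and whose other coordinates are equal -/
def line (N : ℕ) (T : Finset (Fin N)) : Set (Fin N → ℕ) :=
  {x | ∃ m : ℕ, x = fun c => if c ∈ T then 0 else m}

theorem line_type {N : ℕ} {T : Finset (Fin N)} {x y : Fin N → ℕ} (hx : x ∈ line N T)
    (hy : y ∈ line N T) (hxy : x ≠ y) (c : Fin N) : x c = y c ↔ c ∈ T := by
  obtain ⟨m, rfl⟩ := hx
  obtain ⟨m', rfl⟩ := hy
  have hm : m ≠ m' := by
    rintro rfl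
    exact hxy rfl
  by_cases hc : c ∈ T <;> simp [hc, hm]

theorem line_infinite (N : ℕ) (T : Finset (Fin N)) (hT : T ≠ Finset.univ)
    (o : Orb (autGroup (grid N)) (Fin 1)) : (part (autGroup (grid N)) (line N T) o).Infinite := by
  obtain ⟨c, hc⟩ : ∃ c, c ∉ T := by
    by_contra hcon
    push Not at hcon
    exact hT (Finset.eq_univ_of_forall hcon)
  have hinj : Function.Injective (fun m : ℕ => (fun c => if c ∈ T then 0 else m : Fin N → ℕ)) := by
    intro m m' h
    have := congrFun h c
    simpa [hc] using this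
  refine (Set.infinite_range_of_injective hinj).mono ?_
  rintro _ ⟨m, rfl⟩
  refine ⟨⟨m, rfl⟩, ?_⟩
  have h1 := Nat.card_eq_one_iff_unique.1 (grid_card_orb N)
  exact h1.1.elim _ _

theorem line_different (N : ℕ) {T T' : Finset (Fin N)} (hT : T ≠ T') :
    DifferentPairs (autGroup (grid N)) (line N T) (line N T') := by
  rintro x hx y hy hxy x' hx' y' hy' g hg ⟨h1, h2⟩
  apply hT
  have hxy' : x' ≠ y' := by
    rintro rfl
    exact hxy (g.injective (h1.trans h2.symm))
  ext c
  rw [← line_type hx hy hxy c, ← line_type hx' hy' hxy' c, ← h1, ← h2]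
  exact hg c ![x, y]

/-- there are `2 ^ N - 1` types of pairs -/
theorem grid_family (N : ℕ) : ∃ J : Fin (2 ^ N - 1) → Set (Fin N → ℕ),
    (∀ c, ∃ T : Finset (Fin N), T ≠ Finset.univ ∧ J c = line N T) ∧
    (∀ c o, (part (autGroup (grid N)) (J c) o).Infinite) ∧
    ∀ c c', c ≠ c' → DifferentPairs (autGroup (grid N)) (J c) (J c') := by
  have hcard : Fintype.card {T : Finset (Fin N) // T ≠ Finset.univ} = 2 ^ N - 1 := by
    have h1 := Fintype.card_subtype_compl (fun T : Finset (Fin N) => T = Finset.univ)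
    rw [Fintype.card_finset, Fintype.card_fin, Fintype.card_subtype_eq] at h1
    exact h1
  let e := (Fintype.equivFinOfCardEq hcard).symm
  refine ⟨fun c => line N (e c).1, fun c => ⟨_, (e c).2, rfl⟩, fun c o => line_infinite N _ (e c).2 o, ?_⟩
  intro c c' hcc
  apply line_different
  intro h
  exact hcc (e.injective (Subtype.ext h))

end Pool.Agent.U540.BP
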